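import Pool.Agent.Run7.h986.PM.Fin

/-!
Directed polymers on `ℤ^d`, `d ≥ 1`, simple random walk, general i.i.d. environment with
exponential moments, any inverse temperature: for Lebesgue almost every drift the polymer path is
straight at all mesoscopic scales, without any assumption on the curvature of the limiting free
energy.

The walk (`Step`, `pos`) and the energy are defined in `Pool/Agent/TH967/DP/Defs.lean`; `weight`,
`polymer`, `logZ`, `wander`, `Concentrated` and `chiUp` in `Pool/Agent/N662/SE/Exp.lean`; `incr`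
(the Euclidean norm of `(S_j - S_i) - (j - i) v`) in `Pool/Agent/Run7/h986/PM/Tests.lean`; `mean`
(the expectation under the polymer measure) in `Pool/Agent/Run7/h986/PM/Fin.lean`.
-/

set_option autoImplicit false

open MeasureTheory ProbabilityTheory Filter Topology

namespace Pool.Agent.Results.MP_7d29a1_pr.MesoscopicConfinement

open TH967.DP (Step pos energy)
open Pool.Agent.N662.SE Pool.Agent.Run7.H986.PM

/-- Let `d ≥ 1`, let `ω(i,y)` be i.i.d. with all exponential moments and `β ∈ ℝ`. For Lebesgue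
almost every drift `h ∈ ℝ^d` there is a slope `v ∈ ℝ^d` such that, with `χ'` the upper fluctuation
exponent at `h` (the free energy near `h` has exponential moments on the scale `n^ξ`, `ξ > χ'`) and
`ν` the wandering exponent of the polymer around the line of slope `v`:
(1) `χ' ≤ 1/2` and `2ν - 1 ≤ χ'`;
(2) for all `A ∈ ℕ`, `b > χ'/2` and `c < 2b`, almost surely for all large `n`, for all polymers of
length `n` which start at a space-time point `(m, z)` with `m ≤ n^A`, `|z_k| ≤ n^A`, with polymer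
probability at least `1 - exp(-n^c)`: `‖(S_j - S_i) - (j - i) v‖ ≤ n^b (j - i)^(1/2)` for all
`0 ≤ i ≤ j ≤ n`;
(3) for the same polymers and all `p ≥ 1`, `E_n ‖(S_j - S_i) - (j - i) v‖^p ≤
(n^b (j - i)^(1/2))^p` for all `0 ≤ i ≤ j ≤ n`. -/
theorem result {d : ℕ} (hd : 1 ≤ d) {Ω : Type} [MeasurableSpace Ω] (P : Measure Ω)
    [IsProbabilityMeasure P] (ω : ℕ → (Fin d → ℤ) → Ω → ℝ) (hmeas : ∀ i y, Measurable (ω i y))
    (hindep : iIndepFun (fun s : ℕ × (Fin d → ℤ) => ω s.1 s.2) P)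
    (hident : ∀ i y, IdentDistrib (ω i y) (ω 1 0) P P)
    (hexp : ∀ b : ℝ, Integrable (fun x => Real.exp (b * ω 1 0 x)) P) (β : ℝ) :
    ∀ᵐ h : Fin d → ℝ, ∃ v : Fin d → ℝ,
      chiUp P ω β h ≤ 1 / 2 ∧ 2 * wander P ω β h v - 1 ≤ chiUp P ω β h ∧
      (∀ (A : ℕ) (b c : ℝ), chiUp P ω β h / 2 < b → c < 2 * b →
        ∀ᵐ x ∂P, ∀ᶠ n : ℕ in atTop, ∀ (m : ℕ) (z : Fin d → ℤ), m ≤ n ^ A →
          (∀ k, |z k| ≤ (n : ℤ) ^ A) →
          1 - Real.exp (-(n : ℝ) ^ c) ≤ polymer β h (fun i y => ω (m + i) (z + y) x) n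
            {w | ∀ i j : ℕ, i ≤ j → j ≤ n →
              incr v w i j ≤ (n : ℝ) ^ b * Real.sqrt ((j : ℝ) - i)}) ∧
      ∀ (A p : ℕ) (b : ℝ), 1 ≤ p → chiUp P ω β h / 2 < b →
        ∀ᵐ x ∂P, ∀ᶠ n : ℕ in atTop, ∀ (m : ℕ) (z : Fin d → ℤ), m ≤ n ^ A →
          (∀ k, |z k| ≤ (n : ℤ) ^ A) → ∀ i j : ℕ, i ≤ j → j ≤ n →
          mean β h (fun i y => ω (m + i) (z + y) x)
            (fun w : Fin n → Step d => incr v w i j ^ p) ≤
            ((n : ℝ) ^ b * Real.sqrt ((j : ℝ) - i)) ^ p :=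
  final Pool.Agent.N523.SE.MGF.main hd P ω ⟨hmeas, hindep, hident⟩ hexp β

end Pool.Agent.Results.MP_7d29a1_pr.MesoscopicConfinement
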