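import Pool.Agent.Run7.h981.ME.Expo

/-!
Directed polymers in dimension `d+1`, simple random walk, i.i.d. environment with exponential
moments, any inverse temperature: the upper tail of `log Z_n`, the growth rates of the moments of
small order of `Z_n`, the mean of `log Z_n` and the fluctuation exponents. The definitions of
`logZ`, `wander`, `chiUp` are in `Pool/Agent/N662/SE/Exp.lean`, the one of `LowTail` is in
`Pool/Agent/Run7/h208/WT/Main.lean`, those of `PolyUp`, `OptUp`, `LDUp`, `MomBd`, `ExpBd`,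
`Contact`, `MeanRate`, `MaxUp`, `locExp` are in `Pool/Agent/Run7/h981/ME/Defs.lean`.
-/

set_option autoImplicit false

open MeasureTheory ProbabilityTheory Filter Topology

namespace Pool.Agent.Results.MP_7d29a1_pr.MomentExponents

open Pool.Agent.N662.SE Pool.Agent.Run7.h208.WT Pool.Agent.Run7.h981.ME

/-- Let `d ≥ 1`, let `ω(i,y)` be i.i.d. with all exponential moments and let `β` be real. There are
`φ(h)` and `Λ(h,t)` with the following properties.
(1) `E log Z_n / n → φ(h)` for the drift `h`, and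
`exp (n Λ(h,t)) / (2n+1)^d ≤ E Z_n^t ≤ exp (n Λ(h,t))` for `0 < t ≤ 1/4` and all `n`.
(2) Let `U` be a set of drifts and `K ≥ 0`; every condition below is meant for all
`ζ ∈ (K,1)` and uniformly for `h ∈ U`. The following are equivalent: for some `q > d`,
`P (log Z_n ≥ n φ + n^ζ) ≤ C n^(-q)`; `Λ(h,t) ≤ t φ(h) + t^(1/ζ)` for small `t`;
`P (log Z_n ≥ n φ + y) ≤ A exp (-min (y, (y/n^ζ)^(1/(1-ζ))) / A)` for all `y ≥ 0`;
`P (log Z_n ≥ n (φ + δ)) ≤ exp (-n δ^(1/(1-ζ)))` for small `δ` and large `n`; the moments of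
`(log Z_n - n φ)^+` are `O(n^(p ζ))`; it has an exponential moment on the scale `n^ζ`; the
probability that `log Z_n(z) ≥ n φ + n^ζ` for some starting point `z` within distance `n^A` of the
origin tends to `0` (`A > 2`).
(3) Then `P (log Z_n ≥ n φ - n^ζ) ≥ n^(-q)` for every `q > d` and all large `n`.
(4) The following are equivalent: for some `q > d`, `P (log Z_n ≥ E log Z_n + n^ζ) ≤ C n^(-q)`;
the optimal upper tail of (2) around the mean; the conditions of (2) and
`n φ - E log Z_n ≤ n^ζ` for large `n`; the conditions of (2) and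
`P (log Z_n ≤ n φ - n^ζ) → 0`; exponential moments of `|log Z_n - n φ|` on the scale `n^ζ`;
the moments of `|log Z_n - n φ|` are `O(n^(p ζ))`; the same two for `|log Z_n - E log Z_n|`; the
maximum of `log Z_n(z) - E log Z_n` for `z` within distance `n^A` is at most `n^ζ` with probability
tending to `1` (`A > 2`).
(5) The upper fluctuation exponent `χ'` (locally uniform exponential moments on both sides) is
equal to the exponent of the upper tail around the mean and to the exponent in probability of the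
maximum of `log Z_n(z) - E log Z_n` over `z`, and it is the maximum of the exponent of
contact of `Λ` with its tangent at `0` and the exponent in probability of the lower tail, as well
as the maximum of the exponent of contact and the exponent of `n φ - E log Z_n`.
(6) For almost every drift `2 ν - 1` is at most the exponent of the upper tail around the mean, and
this exponent is at least `1/5` if `d = 1`, `β > 0` and the environment is not constant. -/
theorem result {d : ℕ} (hd : 1 ≤ d) {Ω : Type} [MeasurableSpace Ω] (P : Measure Ω)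
    [IsProbabilityMeasure P] (ω : ℕ → (Fin d → ℤ) → Ω → ℝ) (hmeas : ∀ i y, Measurable (ω i y))
    (hindep : iIndepFun (fun s : ℕ × (Fin d → ℤ) => ω s.1 s.2) P)
    (hident : ∀ i y, IdentDistrib (ω i y) (ω 1 0) P P)
    (hexp : ∀ b : ℝ, Integrable (fun x => Real.exp (b * ω 1 0 x)) P) (β : ℝ) :
    ∃ (φ : (Fin d → ℝ) → ℝ) (Λ : (Fin d → ℝ) → ℝ → ℝ),
      (∀ h, Tendsto (fun n : ℕ => (∫ x, logZ β h (fun i y => ω i y x) n ∂P) / n) atTop
        (𝓝 (φ h))) ∧
      (∀ (h : Fin d → ℝ) (t : ℝ), 0 < t → t ≤ 1 / 4 → ∀ n : ℕ,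
        Integrable (fun x => Real.exp (t * logZ β h (fun i y => ω i y x) n)) P ∧
        Real.exp (n * Λ h t) ≤
          (2 * n + 1) ^ d * ∫ x, Real.exp (t * logZ β h (fun i y => ω i y x) n) ∂P ∧
        ∫ x, Real.exp (t * logZ β h (fun i y => ω i y x) n) ∂P ≤ Real.exp (n * Λ h t)) ∧
      (∀ (U : Set (Fin d → ℝ)) (K A : ℝ), 0 ≤ K → 2 < A →
        List.TFAE [
          ∀ ζ ∈ Set.Ioo K 1, PolyUp P d U
            (fun h n x => logZ β h (fun i y => ω i y x) n - n * φ h) ζ,
          ∀ ζ ∈ Set.Ioo K 1, Contact U Λ φ ζ,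
          ∀ ζ ∈ Set.Ioo K 1, OptUp P U
            (fun h n x => logZ β h (fun i y => ω i y x) n - n * φ h) ζ,
          ∀ ζ ∈ Set.Ioo K 1, LDUp P U
            (fun h n x => logZ β h (fun i y => ω i y x) n - n * φ h) ζ,
          ∀ ζ ∈ Set.Ioo K 1, ∀ p : ℝ, 0 < p → MomBd P U
            (fun h n x => max (logZ β h (fun i y => ω i y x) n - n * φ h) 0) p ζ,
          ∀ ζ ∈ Set.Ioo K 1, ExpBd P U
            (fun h n x => max (logZ β h (fun i y => ω i y x) n - n * φ h) 0) ζ,
          ∀ ζ ∈ Set.Ioo K 1, MaxUp P U A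
            (fun h z n x => logZ β h (fun i y => ω i (z + y) x) n - n * φ h) ζ] ∧
        ((∀ ζ ∈ Set.Ioo K 1, Contact U Λ φ ζ) → ∀ ζ ∈ Set.Ioo K 1, ∀ q : ℝ, (d : ℝ) < q →
          ∀ᶠ n : ℕ in atTop, ∀ h ∈ U, (n : ℝ) ^ (-q) ≤
            P.real {x | n * φ h - (n : ℝ) ^ ζ ≤ logZ β h (fun i y => ω i y x) n}) ∧
        List.TFAE [
          ∀ ζ ∈ Set.Ioo K 1, PolyUp P d U (fun h n x => logZ β h (fun i y => ω i y x) n -
            ∫ x', logZ β h (fun i y => ω i y x') n ∂P) ζ,
          ∀ ζ ∈ Set.Ioo K 1, OptUp P U (fun h n x => logZ β h (fun i y => ω i y x) n -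
            ∫ x', logZ β h (fun i y => ω i y x') n ∂P) ζ,
          ∀ ζ ∈ Set.Ioo K 1, Contact U Λ φ ζ ∧
            MeanRate P U (fun h n x => logZ β h (fun i y => ω i y x) n) φ ζ,
          ∀ ζ ∈ Set.Ioo K 1, Contact U Λ φ ζ ∧ LowTail P ω β φ U ζ,
          ∀ ζ ∈ Set.Ioo K 1, ExpBd P U
            (fun h n x => logZ β h (fun i y => ω i y x) n - n * φ h) ζ,
          ∀ ζ ∈ Set.Ioo K 1, ∀ p : ℝ, 0 < p → MomBd P U
            (fun h n x => logZ β h (fun i y => ω i y x) n - n * φ h) p ζ,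
          ∀ ζ ∈ Set.Ioo K 1, ExpBd P U (fun h n x => logZ β h (fun i y => ω i y x) n -
            ∫ x', logZ β h (fun i y => ω i y x') n ∂P) ζ,
          ∀ ζ ∈ Set.Ioo K 1, ∀ p : ℝ, 0 < p → MomBd P U
            (fun h n x => logZ β h (fun i y => ω i y x) n -
              ∫ x', logZ β h (fun i y => ω i y x') n ∂P) p ζ,
          ∀ ζ ∈ Set.Ioo K 1, MaxUp P U A
            (fun h z n x => logZ β h (fun i y => ω i (z + y) x) n -
              ∫ x', logZ β h (fun i y => ω i y x') n ∂P) ζ]) ∧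
      (∀ h : Fin d → ℝ,
        chiUp P ω β h = locExp h (fun U ζ => PolyUp P d U
          (fun h n x => logZ β h (fun i y => ω i y x) n -
            ∫ x', logZ β h (fun i y => ω i y x') n ∂P) ζ) ∧
        (∀ A : ℝ, 2 < A → chiUp P ω β h = locExp h (fun U ζ => MaxUp P U A
          (fun h z n x => logZ β h (fun i y => ω i (z + y) x) n -
            ∫ x', logZ β h (fun i y => ω i y x') n ∂P) ζ)) ∧
        chiUp P ω β h = max (locExp h fun U ζ => Contact U Λ φ ζ)
          (locExp h fun U ζ => LowTail P ω β φ U ζ) ∧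
        chiUp P ω β h = max (locExp h fun U ζ => Contact U Λ φ ζ)
          (locExp h fun U ζ =>
            MeanRate P U (fun h n x => logZ β h (fun i y => ω i y x) n) φ ζ)) ∧
      (∀ᵐ h : Fin d → ℝ, ∃ v : Fin d → ℝ,
        2 * wander P ω β h v - 1 ≤ locExp h (fun U ζ => PolyUp P d U
          (fun h n x => logZ β h (fun i y => ω i y x) n -
            ∫ x', logZ β h (fun i y => ω i y x') n ∂P) ζ)) ∧
      (d = 1 → 0 < β → (¬ ∃ c : ℝ, ∀ᵐ x ∂P, ω 1 0 x = c) →
        ∀ᵐ h : Fin d → ℝ, 1 / 5 ≤ locExp h (fun U ζ => PolyUp P d U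
          (fun h n x => logZ β h (fun i y => ω i y x) n -
            ∫ x', logZ β h (fun i y => ω i y x') n ∂P) ζ)) := by
  have mgf := Pool.Agent.N523.SE.MGF.main
  have he : IsEnv P ω := ⟨hmeas, hindep, hident⟩
  obtain ⟨φ, Λ, h1, h2, -, h3⟩ := all (P := P) (ω := ω) mgf hd he hexp β
  have h4 := expo (P := P) (ω := ω) mgf hd he hexp (φ := φ) (Λ := Λ) _ rfl
    (fun U K hK => (h3 U K 3 hK (by norm_num)).2.2.out 0 6)
    (fun U K hK => (h3 U K 3 hK (by norm_num)).2.2.out 3 6)
    (fun h n x => logZ β h (fun i y => ω i y x) n)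
    (fun U K hK => (h3 U K 3 hK (by norm_num)).2.2.out 2 6)
  have h9 : ∀ A : ℝ, 2 < A → ∀ h : Fin d → ℝ, chiUp P ω β h =
      locExp h (fun U ζ => MaxUp P U A (fun h z n x => logZ β h (fun i y => ω i (z + y) x) n -
        ∫ x', logZ β h (fun i y => ω i y x') n ∂P) ζ) := fun A hA h =>
    expo_one (P := P) (ω := ω) mgf hd he hexp _ rfl
      (fun U ζ => MaxUp P U A (fun h z n x => logZ β h (fun i y => ω i (z + y) x) n -
        ∫ x', logZ β h (fun i y => ω i y x') n ∂P) ζ) (fun U ζ ζ' h5 H => MaxUp.mono h5 H)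
      (fun U K hK => (h3 U K A hK hA).2.2.out 8 6) h
  refine ⟨φ, Λ, h1, h2, h3, fun h => ⟨(h4 h).1, fun A hA => h9 A hA h, (h4 h).2⟩, ?_, ?_⟩
  · filter_upwards [upper mgf hd P ω he hexp β] with h hh
    obtain ⟨v, -, -, h5, -⟩ := hh
    exact ⟨v, h5.trans_eq (h4 h).1⟩
  · intro hd1 hβ hnc
    subst hd1
    have h6 := fluct mgf P ω he hexp hnc β hβ
    filter_upwards [h6.2] with h hh
    rw [← (h4 h).1]
    have h7 := (h6.1 h 0).2.1
    linarith [hh.1]

end Pool.Agent.Results.MP_7d29a1_pr.MomentExponents
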