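import Pool.Agent.Run7.h208.WT.Fin3
import Pool.Agent.Run7.h208.WT.PlaneEnd

/-!
Directed polymers in dimension `d+1`, simple random walk, i.i.d. environment with exponential
moments, any inverse temperature, any drift: the almost sure exponent, the exponents of the moments
of order at most two and the exponent in probability (of the lower tail alone) of the fluctuations
of `log Z_n` around `n φ` are equal, and the upper tail is at most `C n s^(-1/ζ)`. In dimension `1+1`
these exponents satisfy both relations with the typical wandering exponent. The definitions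
of `logZ`, `wander`, `chi`, `chiUp` are in `Pool/Agent/N662/SE/Exp.lean`, the one of `LowTail` is in
`Pool/Agent/Run7/h208/WT/Main.lean`, those of `expLow`, `expLowLoc`, `expAS`, `expMom` are in
`Pool/Agent/Run7/h208/WT/Fin2.lean`, those of `wanderTyp` and `wanderEnd` are in
`Pool/Agent/Run7/h208/WT/PlaneFin.lean` and `Pool/Agent/Run7/h208/WT/PlaneEnd.lean`.
-/

set_option autoImplicit false

open MeasureTheory ProbabilityTheory Filter Topology

namespace Pool.Agent.Results.MP_7d29a1_pr.VarianceExponent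

open Pool.Agent.N662.SE Pool.Agent.Run7.h208.WT

/-- Let `d ≥ 1`, let `ω(i,y)` be i.i.d. with all exponential moments, let `β` be real and let `φ(h)`
be the limiting free energy with the drift `h`.
(1) If the probability that `log Z_n ≤ n φ(h) - n^ξ` tends to `0`, uniformly for `h` in a set `U`,
then for every `ζ > ξ` one has `P (|log Z_n - n φ(h)| ≥ s) ≤ C n s^(-1/ζ)` for all `s > 0`, `n ≥ 1`
and `h ∈ U`.
(2) For every drift the almost sure exponent and the exponents of the moments of order `p ≤ 2` of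
`log Z_n - n φ` (`p = 2`: the mean square deviation) are equal to the exponent in probability of
the lower tail alone; the variance exponent `χ` is at most this exponent `κ`, and for the locally
uniform version `κ'` of `κ` and the exponent `χ'` (exponential moments) one has
`χ ≤ κ ≤ κ' ≤ χ' ≤ (d + 1) κ'`.
(3) Let `ν*(h,v)` be the typical wandering exponent of the end point, the infimum of the `b > 0`
such that `E P_n (|S_n - n v| > n^b) → 0`. For almost every drift there is a slope `v` with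
`2 ν* - 1 ≤ κ'`, and one with `2 ν - 1 ≤ (d + 1) κ'`, where `ν` is the wandering exponent of the
whole path around the line `i v`.
(4) Let `d = 1`, `β > 0` and let the environment not be constant. For every drift `h` and every `v`
the exponent `ν*` is also the infimum of the `b > 0` such that `E P_n (|S_i - i v| > n^b) → 0`
uniformly for the times `i ≤ n`, and `(1 - ν*)/2 ≤ χ`; hence for almost every drift
`(1 - κ')/4 ≤ χ ≤ κ ≤ κ'` and `κ' ≥ 1/5`. -/
theorem result {d : ℕ} (hd : 1 ≤ d) {Ω : Type} [MeasurableSpace Ω] (P : Measure Ω)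
    [IsProbabilityMeasure P] (ω : ℕ → (Fin d → ℤ) → Ω → ℝ) (hmeas : ∀ i y, Measurable (ω i y))
    (hindep : iIndepFun (fun s : ℕ × (Fin d → ℤ) => ω s.1 s.2) P)
    (hident : ∀ i y, IdentDistrib (ω i y) (ω 1 0) P P)
    (hexp : ∀ b : ℝ, Integrable (fun x => Real.exp (b * ω 1 0 x)) P) (β : ℝ) :
    ∃ φ : (Fin d → ℝ) → ℝ,
      (∀ h, Tendsto (fun n : ℕ => (∫ x, logZ β h (fun i y => ω i y x) n ∂P) / n) atTop
        (𝓝 (φ h))) ∧
      (∀ (U : Set (Fin d → ℝ)) (ξ ζ : ℝ), 0 < ξ → ξ < ζ → LowTail P ω β φ U ξ →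
        ∃ C : ℝ, ∀ h ∈ U, ∀ n : ℕ, 1 ≤ n → ∀ s : ℝ, 0 < s →
          P.real {x | s ≤ |logZ β h (fun i y => ω i y x) n - n * φ h|} ≤
            C * n * s ^ (-(1 / ζ))) ∧
      (∀ h, expAS P ω β φ h = expLow P ω β φ h ∧
        (∀ p : ℝ, 0 < p → p ≤ 2 → expMom P ω β φ h p = expLow P ω β φ h) ∧
        chi P ω β h ≤ expLow P ω β φ h ∧ expLow P ω β φ h ≤ expLowLoc P ω β φ h ∧
        expLowLoc P ω β φ h ≤ chiUp P ω β h ∧
        chiUp P ω β h ≤ (d + 1) * expLowLoc P ω β φ h) ∧
      (∀ᵐ h : Fin d → ℝ, ∃ v : Fin d → ℝ,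
        2 * wanderEnd P ω β h v - 1 ≤ expLowLoc P ω β φ h) ∧
      (∀ᵐ h : Fin d → ℝ, ∃ v : Fin d → ℝ,
        2 * wander P ω β h v - 1 ≤ (d + 1) * expLowLoc P ω β φ h) ∧
      (d = 1 → 0 < β → (¬ ∃ c : ℝ, ∀ᵐ x ∂P, ω 1 0 x = c) →
        (∀ h v : Fin d → ℝ, wanderEnd P ω β h v = wanderTyp P ω β h v ∧
          (1 - wanderEnd P ω β h v) / 2 ≤ chi P ω β h) ∧
        ∀ᵐ h : Fin d → ℝ, (1 - expLowLoc P ω β φ h) / 4 ≤ chi P ω β h ∧
          1 / 5 ≤ expLowLoc P ω β φ h) := by
  have mgf := Pool.Agent.N523.SE.MGF.main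
  have he : IsEnv P ω := ⟨hmeas, hindep, hident⟩
  obtain ⟨φ, h1, h2, h3⟩ := exps (P := P) (ω := ω) mgf hd he hexp β
  refine ⟨φ, h1, h2, h3, end_low mgf hd he hexp β h1, ?_, ?_⟩
  · filter_upwards [upper mgf hd P ω he hexp β] with h hh
    obtain ⟨v, -, -, h4, -⟩ := hh
    exact ⟨v, h4.trans (h3 h).2.2.2.2.2⟩
  · intro hd1 hβ hnc
    subst hd1
    obtain ⟨φ2, g1, g2, g3⟩ := plane (P := P) (ω := ω) mgf he hexp hnc hβ
    have hφ : φ2 = φ := by
      funext h
      exact tendsto_nhds_unique (g1 h) (h1 h)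
    subst hφ
    refine ⟨fun h v => ⟨end_eq_typ he β h v, by rw [end_eq_typ he β h v]; exact g2 h v⟩, ?_⟩
    filter_upwards [g3] with h hh
    obtain ⟨v, -, -, h5, -, -, h6⟩ := hh
    exact ⟨h5, h6⟩

end Pool.Agent.Results.MP_7d29a1_pr.VarianceExponent
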