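import Pool.Agent.Run7.h208.WT.Fin

/-!
Directed polymers in dimension `d+1`, simple random walk, i.i.d. environment with exponential
moments, any inverse temperature: qualitative or polynomial control of the fluctuations of
`log Z_n` improves itself to exponential control on every larger scale. The definitions of
`polymer`, `logZ`, `wander`, `Concentrated`, `chiUp` are in `Pool/Agent/N662/SE/Exp.lean`, those of
`LowTail`, `WeakTails`, `Moments` in `Pool/Agent/Run7/h208/WT/Main.lean`.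
-/

set_option autoImplicit false

open MeasureTheory ProbabilityTheory Filter Topology

namespace Pool.Agent.Results.MP_7d29a1_pr.WeakTails

open Pool.Agent.N662.SE Pool.Agent.Run7.h208.WT

/-- Let `d ≥ 1`, let `ω(i,y)` be i.i.d. with all exponential moments and let `β` be real.
(1) Let `φ(h)` be the limiting free energy with the drift `h`. If the probability that
`log Z_n ≤ n φ(h) - n^ξ` tends to `0`, uniformly for `h` in a set `U`, then for every `ζ > ξ` the
lower part `(n φ(h) - log Z_n)^+` has an exponential moment on the scale `n^ζ`, the mean of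
`|log Z_n - n φ(h)|` is `O(n^ζ)` and `0 ≤ n φ(h) - E log Z_n = O(n^ζ)`, uniformly for `h ∈ U`.
(2) For almost every drift `h`, if the hypothesis of (1) holds near `h` with some `ξ < 1` then the
end point of the polymer is within `n^b` of `n v` for every `b > (1+ξ)/2`, in probability.
(3) The upper fluctuation exponent `χ'` (exponential moments) is equal to the exponent of the weak
tails and to the exponent of the moments, and `χ' ≤ u + d/p` if the moments of order `p` are
`O(n^(p u))` near `h`.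
(4) For almost every drift `2 ν - 1` is at most the exponent of the weak tails. -/
theorem result {d : ℕ} (hd : 1 ≤ d) {Ω : Type} [MeasurableSpace Ω] (P : Measure Ω)
    [IsProbabilityMeasure P] (ω : ℕ → (Fin d → ℤ) → Ω → ℝ) (hmeas : ∀ i y, Measurable (ω i y))
    (hindep : iIndepFun (fun s : ℕ × (Fin d → ℤ) => ω s.1 s.2) P)
    (hident : ∀ i y, IdentDistrib (ω i y) (ω 1 0) P P)
    (hexp : ∀ b : ℝ, Integrable (fun x => Real.exp (b * ω 1 0 x)) P) (β : ℝ) :
    (∃ φ : (Fin d → ℝ) → ℝ,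
      (∀ h, Tendsto (fun n : ℕ => (∫ x, logZ β h (fun i y => ω i y x) n ∂P) / n) atTop
        (𝓝 (φ h))) ∧
      (∀ (U : Set (Fin d → ℝ)) (ξ ζ : ℝ), 0 < ξ → ξ < ζ → LowTail P ω β φ U ξ →
        ∃ α C : ℝ, 0 < α ∧ ∀ h ∈ U, ∀ n : ℕ, 1 ≤ n →
          ∫⁻ x, ENNReal.ofReal (Real.exp (α * (n : ℝ) ^ (-ζ) *
            max (n * φ h - logZ β h (fun i y => ω i y x) n) 0)) ∂P ≤ ENNReal.ofReal C ∧
          ∫ x, |logZ β h (fun i y => ω i y x) n - n * φ h| ∂P ≤ C * (n : ℝ) ^ ζ ∧
          0 ≤ n * φ h - ∫ x, logZ β h (fun i y => ω i y x) n ∂P ∧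
          n * φ h - ∫ x, logZ β h (fun i y => ω i y x) n ∂P ≤ C * (n : ℝ) ^ ζ) ∧
      ∀ᵐ h : Fin d → ℝ, ∃ v : Fin d → ℝ, ∀ (U : Set (Fin d → ℝ)) (ξ : ℝ), IsOpen U → h ∈ U →
        0 < ξ → ξ < 1 → LowTail P ω β φ U ξ → ∀ b : ℝ, (1 + ξ) / 2 < b →
        Tendsto (fun n : ℕ => ∫ x, polymer β h (fun i y => ω i y x) n
          {w | (n : ℝ) ^ b < dev v w n} ∂P) atTop (𝓝 0)) ∧
    (∀ h : Fin d → ℝ, chiUp P ω β h = sInf {ξ : ℝ | 0 < ξ ∧ WeakTails P ω β h ξ} ∧
      chiUp P ω β h = sInf {u : ℝ | 0 < u ∧ ∀ p : ℝ, 0 < p → Moments P ω β h p u} ∧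
      ∀ p u : ℝ, 0 < p → 0 ≤ u → Moments P ω β h p u → chiUp P ω β h ≤ u + d / p) ∧
    ∀ᵐ h : Fin d → ℝ, ∃ v : Fin d → ℝ,
      2 * wander P ω β h v - 1 ≤ sInf {ξ : ℝ | 0 < ξ ∧ WeakTails P ω β h ξ} := by
  have mgf := Pool.Agent.N523.SE.MGF.main
  have he : IsEnv P ω := ⟨hmeas, hindep, hident⟩
  have hc : S_CONC := Pool.Agent.N523.SE.CONC.main mgf
  have hs : S_SUP := Pool.Agent.N50.SE.SUP.main hc
  have hi' : S_ID := Pool.Agent.N951.SE.t
  refine ⟨lower P ω mgf hd he hexp β, fun h => ⟨chiUp_eq hc hi' hs hd he hexp β h,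
    chiUp_eq_moments hc hi' hs hd he hexp β h,
    fun p u hp hu H => chiUp_le_moments hc hi' hs hd he hexp hp hu H⟩, ?_⟩
  filter_upwards [upper mgf hd P ω he hexp β] with h hh
  obtain ⟨v, -, -, h3, -⟩ := hh
  refine ⟨v, ?_⟩
  rw [← chiUp_eq hc hi' hs hd he hexp β h]
  exact h3

end Pool.Agent.Results.MP_7d29a1_pr.WeakTails
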